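import Pool.Agent.H13.LinDimDefs

set_option autoImplicit false

open scoped Pointwise
open MulAction Equiv

namespace Pool.Agent.H13.Halving

variable {α : Type} [Fintype α] [DecidableEq α]

lemma smul_compl (g : Perm α) (A : Finset α) : g • Aᶜ = (g • A)ᶜ := by
  ext x
  simp [← Finset.inv_smul_mem_iff]

/-- The stabilizer of the partition `{A, Aᶜ}`. -/
abbrev Hst (A : Finset α) : Subgroup (Perm α) :=
  stabilizer (Perm α) ({A, Aᶜ} : Finset (Finset α))

lemma mem_stab (A : Finset α) (g : Perm α) :
    g ∈ Hst A ↔ g • A = A ∨ g • A = Aᶜ := by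
  rw [mem_stabilizer_iff]
  have h1 : g • ({A, Aᶜ} : Finset (Finset α)) = {g • A, (g • A)ᶜ} := by
    rw [← smul_compl]
    ext x
    simp [Finset.mem_smul_finset]
    constructor
    · rintro (h | h) <;> simp [h]
    · rintro (h | h) <;> simp [h]
  rw [h1]
  constructor
  · intro h
    have : g • A ∈ ({A, Aᶜ} : Finset (Finset α)) := by
      rw [← h]; simp
    simpa using this
  · rintro (h | h)
    · rw [h]
    · rw [h, compl_compl, Finset.pair_comm]

lemma swap_mem {A : Finset α} {i j : α} (h : i ∈ A ↔ j ∈ A) : swap i j ∈ Hst A := by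
  rw [mem_stab]
  left
  ext x
  rw [← Finset.inv_smul_mem_iff, swap_inv, Perm.smul_def]
  by_cases hxi : x = i
  · subst hxi; rw [swap_apply_left]; exact h.symm
  · by_cases hxj : x = j
    · subst hxj; rw [swap_apply_right]; exact h
    · rw [swap_apply_of_ne_of_ne hxi hxj]

lemma exists_flip {A : Finset α} (hA : A.card = Aᶜ.card) : ∃ g : Perm α, g • A = Aᶜ := by
  obtain ⟨σ, hσ⟩ := Equiv.Perm.exists_map_finset_eq A Aᶜ hA
  refine ⟨σ, ?_⟩
  rw [← hσ]
  ext x
  simp only [Finset.mem_smul_finset, Finset.mem_map_equiv]
  constructor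
  · rintro ⟨y, hy, rfl⟩
    simpa using hy
  · intro h
    exact ⟨_, h, by simp⟩

lemma exists_mem_apply_eq {A : Finset α} (hA : A.card = Aᶜ.card) (i j : α) :
    ∃ g ∈ Hst A, g i = j := by
  by_cases h : (i ∈ A ↔ j ∈ A)
  · exact ⟨swap i j, swap_mem h, swap_apply_left i j⟩
  · obtain ⟨g, hg⟩ := exists_flip hA
    have hgH : g ∈ Hst A := by rw [mem_stab]; exact Or.inr hg
    have h1 : (g i ∈ A ↔ i ∉ A) := by
      have h3 : g i ∈ Aᶜ ↔ i ∈ A := by
        rw [← hg, ← Finset.inv_smul_mem_iff, Perm.smul_def]
        simp
      rw [Finset.mem_compl] at h3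
      tauto
    have h2 : (g i ∈ A ↔ j ∈ A) := by rw [h1]; tauto
    exact ⟨swap (g i) j * g, Subgroup.mul_mem _ (swap_mem h2) hgH, by simp⟩

lemma isCoatom {A : Finset α} (h2 : 2 ≤ A.card) (hA : A.card = Aᶜ.card) :
    IsCoatom (Hst A) := by
  obtain ⟨i, hi, i', hi', hii'⟩ := Finset.one_lt_card.mp (show 1 < A.card by omega)
  obtain ⟨j, hj⟩ : Aᶜ.Nonempty := by
    rw [← Finset.card_pos]; omega
  have hj' : j ∉ A := by simpa using hj
  have hij : i ≠ j := fun h => hj' (h ▸ hi)
  have hi'j : i' ≠ j := fun h => hj' (h ▸ hi')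
  constructor
  · intro htop
    have hmem : swap i j ∈ Hst A := by rw [htop]; trivial
    rw [mem_stab] at hmem
    rcases hmem with h | h
    · apply hj'
      rw [← h, ← Finset.inv_smul_mem_iff, swap_inv, Perm.smul_def, swap_apply_right]
      exact hi
    · have : i' ∈ Aᶜ := by
        rw [← h, ← Finset.inv_smul_mem_iff, swap_inv, Perm.smul_def,
          swap_apply_of_ne_of_ne hii'.symm hi'j]
        exact hi'
      simp at this
      exact this hi'
  · intro K hK
    have hHK : Hst A ≤ K := hK.le
    apply Equiv.Perm.subgroup_eq_top_of_isPreprimitive_of_isSwap_mem (g := swap i i')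
    rotate_left
    · exact ⟨i, i', hii', rfl⟩
    · exact hHK (swap_mem (by simp [hi, hi']))
    refine { exists_smul_eq := ?_, isTrivialBlock_of_isBlock := ?_ }
    · intro x y
      obtain ⟨g, hg, hgx⟩ := exists_mem_apply_eq hA x y
      exact ⟨⟨g, hHK hg⟩, hgx⟩
    · intro B hB
      by_contra hnt
      rw [IsTrivialBlock, not_or] at hnt
      obtain ⟨hns, hnu⟩ := hnt
      -- key propagation
      have key : ∀ x ∈ B, ∀ y ∈ B, x ≠ y → ∀ z, z ≠ x → (y ∈ A ↔ z ∈ A) → z ∈ B := by
        intro x hx y hy hxy z hzx hyz
        have hs : swap y z ∈ K := hHK (swap_mem hyz)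
        have hfix : (⟨swap y z, hs⟩ : K) • x = x := by
          change swap y z x = x
          exact swap_apply_of_ne_of_ne hxy hzx.symm
        have hBB := hB.smul_eq_of_mem hx (by rw [hfix]; exact hx : (⟨swap y z, hs⟩ : K) • x ∈ B)
        rw [← hBB]
        refine ⟨y, hy, ?_⟩
        change swap y z y = z
        exact swap_apply_left y z
      have side : ∀ x ∈ B, ∀ y ∈ B, (x ∈ A ↔ y ∈ A) := by
        intro x hx y hy
        by_contra hxy
        have hne : x ≠ y := by rintro rfl; exact hxy Iff.rfl
        apply hnu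
        rw [Set.eq_univ_iff_forall]
        intro z
        by_cases hz : (y ∈ A ↔ z ∈ A)
        · have hzx : z ≠ x := by rintro rfl; exact hxy hz.symm
          exact key x hx y hy hne z hzx hz
        · have hz' : (x ∈ A ↔ z ∈ A) := by tauto
          have hzy : z ≠ y := by rintro rfl; exact hz Iff.rfl
          exact key y hy x hx hne.symm z hzy hz'
      rw [Set.not_subsingleton_iff] at hns
      obtain ⟨x, hx, y, hy, hxy⟩ := hns
      have hmemB : ∀ z, z ∈ B ↔ (x ∈ A ↔ z ∈ A) := by
        intro z
        constructor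
        · intro hz; exact side x hx z hz
        · intro hz
          by_cases hzx : z = x
          · rw [hzx]; exact hx
          · exact key x hx y hy hxy z hzx ((side x hx y hy).symm.trans hz)
      -- then K ≤ Hst A
      apply hK.not_ge
      intro g hg
      have hgB := hB.smul_eq_or_disjoint (⟨g, hg⟩ : K)
      rw [mem_stab]
      rcases hgB with h | h
      · left
        -- g B = B
        have h' : ∀ z, g⁻¹ z ∈ B ↔ z ∈ B := by
          intro z
          have := Set.ext_iff.mp h z
          rw [Set.mem_smul_set_iff_inv_smul_mem] at this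
          exact this
        ext z
        rw [← Finset.inv_smul_mem_iff, Perm.smul_def]
        have := h' z
        rw [hmemB, hmemB] at this
        tauto
      · right
        have h' : ∀ z, ¬ (g⁻¹ z ∈ B ∧ z ∈ B) := by
          intro z ⟨h1, h2⟩
          apply Set.disjoint_left.mp h _ h2
          rw [Set.mem_smul_set_iff_inv_smul_mem]
          exact h1
        have h'' : ∀ z, (x ∈ A ↔ g⁻¹ z ∈ A) → ¬ (x ∈ A ↔ z ∈ A) := by
          intro z h1 h2
          exact h' z ⟨(hmemB _).mpr h1, (hmemB _).mpr h2⟩
        by_cases hxA : x ∈ A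
        · apply Finset.eq_of_subset_of_card_le
          · intro z hz
            rw [← Finset.inv_smul_mem_iff, Perm.smul_def] at hz
            rw [Finset.mem_compl]
            intro hz2
            exact h'' z (by tauto) (by tauto)
          · rw [Finset.card_smul_finset, hA]
        · symm
          apply Finset.eq_of_subset_of_card_le
          · intro z hz
            rw [Finset.mem_compl] at hz
            rw [← Finset.inv_smul_mem_iff, Perm.smul_def]
            by_contra hz2
            exact h'' z (by tauto) (by tauto)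
          · rw [Finset.card_smul_finset, hA]

/-! ### The set of halvings -/

/-- The orbit of the partition `{A, Aᶜ}`. -/
abbrev Om (A : Finset α) : Type := orbit (Perm α) ({A, Aᶜ} : Finset (Finset α))

lemma smul_pair (g : Perm α) (B : Finset α) :
    g • ({B, Bᶜ} : Finset (Finset α)) = {g • B, (g • B)ᶜ} := by
  rw [← smul_compl]
  ext x
  simp [Finset.mem_smul_finset]
  constructor
  · rintro (h | h) <;> simp [h]
  · rintro (h | h) <;> simp [h]

lemma Om_spec {A : Finset α} (ω : Om A) :
    ∃ B : Finset α, B.card = A.card ∧ (ω : Finset (Finset α)) = {B, Bᶜ} := by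
  obtain ⟨x, g, rfl⟩ := ω
  exact ⟨g • A, Finset.card_smul_finset g A, smul_pair g A⟩

lemma mem_Om {A B : Finset α} (h : B.card = A.card) :
    ({B, Bᶜ} : Finset (Finset α)) ∈ orbit (Perm α) ({A, Aᶜ} : Finset (Finset α)) := by
  obtain ⟨σ, hσ⟩ := Equiv.Perm.exists_map_finset_eq A B h.symm
  refine ⟨σ, ?_⟩
  change σ • ({A, Aᶜ} : Finset (Finset α)) = _
  have : σ • A = B := by
    rw [← hσ]
    ext x
    simp only [Finset.mem_smul_finset, Finset.mem_map_equiv]
    constructor
    · rintro ⟨y, hy, rfl⟩
      simpa using hy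
    · intro h
      exact ⟨_, h, by simp⟩
  rw [smul_pair, this]

lemma pair_eq_iff {B C : Finset α} :
    ({B, Bᶜ} : Finset (Finset α)) = {C, Cᶜ} ↔ B = C ∨ B = Cᶜ := by
  constructor
  · intro h
    have : B ∈ ({C, Cᶜ} : Finset (Finset α)) := by rw [← h]; simp
    simpa using this
  · rintro (h | h)
    · rw [h]
    · rw [h, compl_compl, Finset.pair_comm]

lemma stab_Om (A : Finset α) :
    stabilizer (Perm α) (⟨_, mem_orbit_self _⟩ : Om A) = Hst A := by
  ext g
  simp [mem_stabilizer_iff, Subtype.ext_iff]

lemma nontrivial_Om {A : Finset α} (h2 : 2 ≤ A.card) (hA : A.card = Aᶜ.card) :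
    Nontrivial (Om A) := by
  by_contra h
  rw [not_nontrivial_iff_subsingleton] at h
  have h1 := (isCoatom h2 hA).1
  apply h1
  rw [← stab_Om, eq_top_iff]
  intro g _
  rw [mem_stabilizer_iff]
  exact Subsingleton.elim _ _

theorem isPreprimitive_Om {A : Finset α} (h2 : 2 ≤ A.card) (hA : A.card = Aᶜ.card) :
    IsPreprimitive (Perm α) (Om A) := by
  have := nontrivial_Om h2 hA
  rw [← isCoatom_stabilizer_iff_preprimitive _ (⟨_, mem_orbit_self _⟩ : Om A), stab_Om]
  exact isCoatom h2 hA

theorem faithful_Om {A : Finset α} (h3 : 3 ≤ A.card) (hA : A.card = Aᶜ.card) :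
    FaithfulSMul (Perm α) (Om A) := by
  have hcard : Fintype.card α = 2 * A.card := by
    have := Finset.card_add_card_compl A; omega
  have main : ∀ g : Perm α, (∀ ω : Om A, g • ω = ω) → g = 1 := by
    intro g hg
    by_contra hne
    obtain ⟨i, hi⟩ : ∃ i, g i ≠ i := by
      by_contra hall
      push Not at hall
      exact hne (Equiv.ext hall)
    obtain ⟨k, hk⟩ : ∃ k, k ∉ ({i, g i} : Finset α) := by
      by_contra hall
      push Not at hall
      have h1 : (Finset.univ : Finset α).card ≤ ({i, g i} : Finset α).card :=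
        Finset.card_le_card (fun x _ => hall x)
      have h2 : ({i, g i} : Finset α).card ≤ 2 := Finset.card_le_two
      rw [Finset.card_univ, hcard] at h1
      omega
    simp only [Finset.mem_insert, Finset.mem_singleton, not_or] at hk
    obtain ⟨B, hB1, hB2, hB3⟩ : ∃ B : Finset α, {i, k, g k} ⊆ B ∧ B ⊆ Finset.univ.erase (g i) ∧
        B.card = A.card := by
      apply Finset.exists_subsuperset_card_eq
      · intro x hx
        simp only [Finset.mem_insert, Finset.mem_singleton] at hx
        rw [Finset.mem_erase]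
        refine ⟨?_, Finset.mem_univ _⟩
        rcases hx with rfl | rfl | rfl
        · exact hi.symm
        · exact hk.2
        · intro h; exact hk.1 (g.injective h)
      · exact le_trans Finset.card_le_three h3
      · rw [Finset.card_erase_of_mem (Finset.mem_univ _), Finset.card_univ, hcard]
        omega
    have h1 := hg ⟨_, mem_Om hB3⟩
    rw [Subtype.ext_iff] at h1
    change g • ({B, Bᶜ} : Finset (Finset α)) = {B, Bᶜ} at h1
    have h4 : g ∈ Hst B := h1
    rw [mem_stab] at h4
    have hiB : g i ∉ B := fun h => by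
      have := hB2 h
      simp at this
    have hi' : i ∈ B := hB1 (by simp)
    have hk' : k ∈ B := hB1 (by simp)
    have hgk' : g k ∈ B := hB1 (by simp)
    have e1 : g i ∈ g • B := by
      rw [← Finset.inv_smul_mem_iff, Perm.smul_def]; simpa using hi'
    have e2 : g k ∈ g • B := by
      rw [← Finset.inv_smul_mem_iff, Perm.smul_def]; simpa using hk'
    rcases h4 with h | h
    · rw [h] at e1; exact hiB e1
    · rw [h] at e2; simp at e2; exact e2 hgk'
  refine ⟨fun {g₁ g₂} h => ?_⟩
  have : g₂⁻¹ * g₁ = 1 := by
    apply main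
    intro ω
    rw [mul_smul, h ω, inv_smul_smul]
  exact (inv_mul_eq_one.mp this).symm

/-- A halving action is not equivalent to a `k`-subset action. -/
theorem not_kSubset {A : Finset α} (h2 : 2 ≤ A.card) (hA : A.card = Aᶜ.card) (k : ℕ)
    (e : Om A ≃ {s : Finset α // s.card = k})
    (he : ∀ (g : Perm α) (ω : Om A), ((e (g • ω) : Finset α)) = (e ω : Finset α).image g) :
    False := by
  let ω₀ : Om A := ⟨_, mem_orbit_self _⟩
  let s : Finset α := e ω₀
  have hstab : ∀ g : Perm α, g ∈ Hst A ↔ s.image g = s := by
    intro g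
    rw [← stab_Om, mem_stabilizer_iff]
    constructor
    · intro h
      have := he g ω₀
      rw [h] at this
      exact this.symm
    · intro h
      apply e.injective
      apply Subtype.ext
      rw [he g ω₀]
      exact h
  have htop : Hst A ≠ ⊤ := (isCoatom h2 hA).1
  by_cases hs : ∃ i ∈ s, ∃ j, j ∉ s
  · obtain ⟨i, hi, j, hj⟩ := hs
    obtain ⟨g, hg, hgi⟩ := exists_mem_apply_eq hA i j
    rw [hstab] at hg
    apply hj
    rw [← hg, ← hgi]
    exact Finset.mem_image_of_mem _ hi
  · push Not at hs
    apply htop
    rw [eq_top_iff]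
    intro g _
    rw [hstab]
    by_cases hne : s.Nonempty
    · obtain ⟨i, hi⟩ := hne
      have : s = Finset.univ := by
        ext x; simp [hs i hi x]
      rw [this]
      ext x
      simp only [Finset.mem_image, Finset.mem_univ, true_and, iff_true]
      exact ⟨g.symm x, by simp⟩
    · rw [Finset.not_nonempty_iff_eq_empty] at hne
      rw [hne]; simp

/-! ### Linear dimension -/

universe u

open Pool.Agent.H13.LinDim

lemma hasRep_of_subquotient {F : Type u} [Field F] {G : Type} [Group G] {Ω : Type}
    [MulAction G Ω] {E : Type u} [AddCommGroup E] [Module F E] [FiniteDimensional F E]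
    (ρ : Representation F G E) (U B : Submodule F E)
    (hU : ∀ g, U ≤ U.comap (ρ g)) (hB : ∀ g, B ≤ B.comap (ρ g)) (hBU : B ≤ U)
    (φ : Ω → E) (hφU : ∀ ω, φ ω ∈ U) (hφ : ∀ g ω, φ (g • ω) - ρ g (φ ω) ∈ B)
    (hinj : ∀ ω ω', φ ω - φ ω' ∈ B → ω = ω') :
    HasRep F G Ω (Module.finrank F U - Module.finrank F B) := by
  let ρU := ρ.subrepresentation U hU
  have hB' : ∀ g, B.comap U.subtype ≤ (B.comap U.subtype).comap (ρU g) := by
    intro g x hx
    simp only [Submodule.mem_comap, Submodule.subtype_apply] at hx ⊢
    exact hB g hx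
  let ρQ := ρU.quotient (B.comap U.subtype) hB'
  refine ⟨U ⧸ B.comap U.subtype, inferInstance, inferInstance, ρQ,
    fun ω => Submodule.Quotient.mk ⟨φ ω, hφU ω⟩, inferInstance, ?_, ?_, ?_⟩
  · have h1 := Submodule.finrank_quotient_add_finrank (B.comap U.subtype)
    have h2 : Module.finrank F (B.comap U.subtype) = Module.finrank F B :=
      (Submodule.comapSubtypeEquivOfLe hBU).finrank_eq
    omega
  · intro ω ω' h
    rw [Submodule.Quotient.eq] at h
    exact hinj ω ω' h
  · intro g ω
    change _ = Submodule.mapQ _ _ (ρU g) (hB' g) (Submodule.Quotient.mk _)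
    rw [Submodule.mapQ_apply, Submodule.Quotient.eq]
    exact hφ g ω

/-- The permutation representation of `Perm α` on functions. -/
def permRep (F : Type u) [Field F] (α : Type) : Representation F (Perm α) (α → F) where
  toFun g := LinearMap.funLeft F F (g⁻¹ : Perm α)
  map_one' := by ext; simp [LinearMap.funLeft]
  map_mul' g h := by ext; simp [LinearMap.funLeft]

omit [Fintype α] [DecidableEq α] in
lemma permRep_apply (F : Type u) [Field F] (g : Perm α) (f : α → F) (x : α) :
    permRep F α g f x = f (g⁻¹ x) := rfl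

/-- Characteristic two: the halving action has a representation of dimension `n - 1`. -/
theorem hasRep_char_two {A : Finset α} (h2 : 2 ≤ A.card) (hA : A.card = Aᶜ.card)
    (F : Type u) [Field F] [CharP F 2] :
    HasRep F (Perm α) (Om A) (Fintype.card α - 1) := by
  classical
  have hne : Nonempty α := by
    have : A.Nonempty := by rw [← Finset.card_pos]; omega
    exact ⟨this.choose⟩
  let one : α → F := fun _ => 1
  let B : Submodule F (α → F) := Submodule.span F {one}
  have hone : one ≠ 0 := by
    intro h
    have := congrFun h hne.some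
    simp [one] at this
  have hfB : Module.finrank F B = 1 := finrank_span_singleton hone
  have hfU : Module.finrank F (⊤ : Submodule F (α → F)) = Fintype.card α := by
    rw [finrank_top, Module.finrank_fintype_fun_eq_card]
  choose b hb1 hb2 using (fun ω : Om A => Om_spec ω)
  let φ : Om A → (α → F) := fun ω x => if x ∈ b ω then 1 else 0
  have h11 : (1 : F) + 1 = 0 := CharTwo.add_self_eq_zero 1
  have key : ∀ C D : Finset α, (C = D ∨ C = Dᶜ) →
      (fun x => if x ∈ C then (1 : F) else 0) - (fun x => if x ∈ D then (1 : F) else 0) ∈ B := by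
    intro C D h
    rcases h with h | h
    · rw [h, sub_self]; exact B.zero_mem
    · have : (fun x => if x ∈ C then (1 : F) else 0) - (fun x => if x ∈ D then (1 : F) else 0)
          = one := by
        ext x
        by_cases hx : x ∈ D
        · have hx' : x ∉ C := by rw [h]; simpa using hx
          simp only [Pi.sub_apply, if_neg hx', if_pos hx, one]
          linear_combination -h11
        · have hx' : x ∈ C := by rw [h]; simpa using hx
          simp only [Pi.sub_apply, if_pos hx', if_neg hx, one]
          ring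
      rw [this]
      exact Submodule.mem_span_singleton_self one
  have := hasRep_of_subquotient (permRep F α) ⊤ B (fun g => by simp) ?_ le_top φ
    (fun ω => Submodule.mem_top) (Ω := Om A) ?_ ?_
  · rwa [hfU, hfB] at this
  · intro g
    rw [Submodule.span_le, Set.singleton_subset_iff]
    change permRep F α g one ∈ B
    have : permRep F α g one = one := by
      ext x; rfl
    rw [this]
    exact Submodule.mem_span_singleton_self one
  · intro g ω
    have h1 : permRep F α g (φ ω) = fun x => if x ∈ g • b ω then (1 : F) else 0 := by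
      ext x
      rw [permRep_apply]
      simp only [φ, ← Finset.inv_smul_mem_iff, Perm.smul_def]
    rw [h1]
    apply key
    rw [← pair_eq_iff, ← hb2, ← smul_pair, ← hb2]
    rfl
  · intro ω ω' h
    rw [Submodule.mem_span_singleton] at h
    obtain ⟨c, hc⟩ := h
    apply Subtype.ext
    rw [hb2, hb2, pair_eq_iff]
    have hc' : ∀ x, c = (if x ∈ b ω then (1 : F) else 0) - (if x ∈ b ω' then (1 : F) else 0) := by
      intro x
      have := congrFun hc x
      simpa [one, φ] using this
    by_cases hc0 : c = 0
    · left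
      ext x
      have := hc' x
      rw [hc0] at this
      by_cases h1 : x ∈ b ω <;> by_cases h2 : x ∈ b ω'
      · simp only [h1, h2]
      · rw [if_pos h1, if_neg h2] at this; simp at this
      · rw [if_neg h1, if_pos h2] at this; simp at this
      · simp only [h1, h2]
    · right
      ext x
      have := hc' x
      rw [Finset.mem_compl]
      by_cases h1 : x ∈ b ω <;> by_cases h2 : x ∈ b ω'
      · rw [if_pos h1, if_pos h2, sub_self] at this; exact absurd this hc0
      · simp only [h1, h2, not_false_eq_true]
      · simp only [h1, h2, not_true_eq_false]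
      · rw [if_neg h1, if_neg h2, sub_self] at this; exact absurd this hc0

/-! ### Odd characteristic dividing `n - 2` -/

/-- The representation of `Perm α` on functions of two variables. -/
def permRep2 (F : Type u) [Field F] (α : Type) : Representation F (Perm α) (α → α → F) where
  toFun g :=
    { toFun := fun f i j => f ((g⁻¹ : Perm α) i) ((g⁻¹ : Perm α) j)
      map_add' := fun _ _ => rfl
      map_smul' := fun _ _ => rfl }
  map_one' := by ext; simp
  map_mul' g h := by ext; simp

omit [Fintype α] [DecidableEq α] in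
lemma permRep2_apply (F : Type u) [Field F] (g : Perm α) (f : α → α → F) (i j : α) :
    permRep2 F α g f i j = f (g⁻¹ i) (g⁻¹ j) := rfl

/-- Symmetric functions of two variables vanishing on the diagonal. -/
def Esub (F : Type u) [Field F] (α : Type) : Submodule F (α → α → F) where
  carrier := {f | (∀ i j, f i j = f j i) ∧ ∀ i, f i i = 0}
  add_mem' := by
    rintro f g ⟨h1, h2⟩ ⟨h3, h4⟩
    exact ⟨fun i j => by simp [h1 i j, h3 i j], fun i => by simp [h2 i, h4 i]⟩
  zero_mem' := ⟨fun _ _ => rfl, fun _ => rfl⟩
  smul_mem' := by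
    rintro c f ⟨h1, h2⟩
    exact ⟨fun i j => by simp [h1 i j], fun i => by simp [h2 i]⟩

lemma finrank_Esub (F : Type u) [Field F] :
    Module.finrank F (Esub F α) ≤ (Fintype.card α).choose 2 := by
  classical
  let L : Esub F α →ₗ[F] ({e : Sym2 α // ¬ e.IsDiag} → F) :=
    { toFun := fun f e => Sym2.lift ⟨fun i j => (f : α → α → F) i j, fun i j => f.2.1 i j⟩ e.1
      map_add' := by
        intro f g
        ext ⟨e, he⟩
        induction e using Sym2.ind with
        | _ i j => rfl
      map_smul' := by
        intro c f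
        ext ⟨e, he⟩
        induction e using Sym2.ind with
        | _ i j => rfl }
  have hL : Function.Injective L := by
    rw [injective_iff_map_eq_zero]
    intro f hf
    apply Subtype.ext
    ext i j
    by_cases hij : i = j
    · subst hij; exact f.2.2 i
    · have := congrFun hf ⟨s(i, j), by simpa using hij⟩
      exact this
  have h1 := LinearMap.finrank_le_finrank_of_injective hL
  rwa [Module.finrank_fintype_fun_eq_card, Sym2.card_subtype_not_diag] at h1

/-- The degree map. -/
def degMap (F : Type u) [Field F] (α : Type) [Fintype α] : Esub F α →ₗ[F] (α → F) where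
  toFun f := fun i => ∑ j, (f : α → α → F) i j
  map_add' := by intro f g; ext i; simp [Finset.sum_add_distrib]
  map_smul' := by intro c f; ext i; simp [Finset.mul_sum]

/-- The star map. -/
def starMap (F : Type u) [Field F] (α : Type) [DecidableEq α] : (α → F) →ₗ[F] Esub F α where
  toFun c := ⟨fun i j => if i = j then 0 else c i + c j, by
    refine ⟨fun i j => ?_, fun i => by simp⟩
    change (if i = j then 0 else c i + c j) = (if j = i then 0 else c j + c i)
    by_cases h : i = j
    · simp [h]
    · rw [if_neg h, if_neg (Ne.symm h), add_comm]⟩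
  map_add' := by
    intro c d
    apply Subtype.ext
    ext i j
    by_cases h : i = j
    · simp [h]
    · simp only [Submodule.coe_add, Pi.add_apply, if_neg h]; ring
  map_smul' := by
    intro a c
    apply Subtype.ext
    ext i j
    by_cases h : i = j
    · simp [h]
    · simp only [Submodule.coe_smul, Pi.smul_apply, if_neg h, smul_eq_mul, RingHom.id_apply]; ring

omit [Fintype α] in
lemma starMap_apply (F : Type u) [Field F] (c : α → F) (i j : α) :
    (starMap F α c : α → α → F) i j = if i = j then 0 else c i + c j := rfl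

omit [DecidableEq α] in
lemma degMap_apply (F : Type u) [Field F] (f : Esub F α) (i : α) :
    degMap F α f i = ∑ j, (f : α → α → F) i j := rfl

lemma exists_three (h : 3 ≤ Fintype.card α) (i : α) : ∃ j k : α, j ≠ i ∧ k ≠ i ∧ j ≠ k := by
  have h1 : 1 < (Finset.univ.erase i : Finset α).card := by
    rw [Finset.card_erase_of_mem (Finset.mem_univ _), Finset.card_univ]; omega
  obtain ⟨j, hj, k, hk, hjk⟩ := Finset.one_lt_card.mp h1
  exact ⟨j, k, (Finset.mem_erase.mp hj).1, (Finset.mem_erase.mp hk).1, hjk⟩

lemma starMap_injective (F : Type u) [Field F] (h2 : (2 : F) ≠ 0) (h : 3 ≤ Fintype.card α) :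
    Function.Injective (starMap F α) := by
  rw [injective_iff_map_eq_zero]
  intro c hc
  have hc' : ∀ i j, i ≠ j → c i + c j = 0 := by
    intro i j hij
    have := congrFun (congrFun (congrArg Subtype.val hc) i) j
    rw [starMap_apply, if_neg hij] at this
    exact this
  ext i
  obtain ⟨j, k, hji, hki, hjk⟩ := exists_three h i
  have e1 := hc' i j hji.symm
  have e2 := hc' i k hki.symm
  have e3 := hc' j k hjk
  have : 2 * c i = 0 := by linear_combination e1 + e2 - e3
  exact (mul_eq_zero.mp this).resolve_left h2

/-- The elementary symmetric function of an edge. -/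
def edge (F : Type u) [Field F] (a b : α) (hab : a ≠ b) : Esub F α :=
  ⟨fun i j => if (i = a ∧ j = b) ∨ (i = b ∧ j = a) then 1 else 0, by
    refine ⟨fun i j => ?_, fun i => ?_⟩
    · have : ((i = a ∧ j = b) ∨ (i = b ∧ j = a)) ↔ ((j = a ∧ i = b) ∨ (j = b ∧ i = a)) := by
        tauto
      simp only [this]
    · change (if (i = a ∧ i = b) ∨ (i = b ∧ i = a) then (1 : F) else 0) = 0
      rw [if_neg]
      rintro (⟨h1, h2⟩ | ⟨h1, h2⟩)
      · exact hab (h1.symm.trans h2)
      · exact hab (h2.symm.trans h1)⟩

lemma degMap_edge (F : Type u) [Field F] (a b : α) (hab : a ≠ b) :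
    degMap F α (edge F a b hab) = fun i => (if i = a then 1 else 0) + (if i = b then 1 else 0) := by
  ext i
  rw [degMap_apply]
  change ∑ j, (if (i = a ∧ j = b) ∨ (i = b ∧ j = a) then (1 : F) else 0) = _
  by_cases hia : i = a
  · have hib : i ≠ b := fun h => hab (hia.symm.trans h)
    simp [hia, hab]
  · by_cases hib : i = b
    · simp [hib, hab.symm]
    · simp [hia, hib]

lemma degMap_surjective (F : Type u) [Field F] (h2 : (2 : F) ≠ 0) (h : 3 ≤ Fintype.card α) :
    Function.Surjective (degMap F α) := by
  have key : ∀ i : α, Pi.single i (1 : F) ∈ LinearMap.range (degMap F α) := by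
    intro i
    obtain ⟨j, k, hji, hki, hjk⟩ := exists_three h i
    refine ⟨(2 : F)⁻¹ • (edge F i j hji.symm + edge F i k hki.symm - edge F j k hjk), ?_⟩
    rw [map_smul, map_sub, map_add, degMap_edge, degMap_edge, degMap_edge]
    ext x
    simp only [Pi.smul_apply, Pi.sub_apply, Pi.add_apply, smul_eq_mul, Pi.single_apply]
    by_cases hx : x = i
    · subst hx
      simp only [if_true, if_neg hji.symm, if_neg hki.symm]
      field_simp
      ring
    · simp only [if_neg hx]
      ring
  rw [← LinearMap.range_eq_top, eq_top_iff]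
  intro f _
  have : f = ∑ i, f i • (Pi.single i (1 : F) : α → F) := by
    ext x
    simp [Finset.sum_apply, Pi.single_apply]
  rw [this]
  exact Submodule.sum_mem _ (fun i _ => Submodule.smul_mem _ _ (key i))

/-- Odd characteristic dividing `n - 2`. -/
theorem hasRep_char_odd {A : Finset α} (h3 : 3 ≤ A.card) (hA : A.card = Aᶜ.card)
    (F : Type u) [Field F] (h2 : (2 : F) ≠ 0) (hn : (Fintype.card α : F) = 2) :
    ∃ d, d + 2 * Fintype.card α ≤ (Fintype.card α).choose 2 + 1 ∧
      HasRep F (Perm α) (Om A) d := by
  classical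
  have hcard : Fintype.card α = 2 * A.card := by
    have := Finset.card_add_card_compl A; omega
  have hne : Nonempty α := by
    have : A.Nonempty := by rw [← Finset.card_pos]; omega
    exact ⟨this.choose⟩
  let one : α → F := fun _ => 1
  let S1 : Submodule F (α → F) := Submodule.span F {one}
  have hone : one ≠ 0 := by
    intro h
    have := congrFun h hne.some
    simp [one] at this
  let D' : Esub F α →ₗ[F] ((α → F) ⧸ S1) := S1.mkQ.comp (degMap F α)
  let U : Submodule F (Esub F α) := LinearMap.ker D'
  let B : Submodule F (Esub F α) := LinearMap.range (starMap F α)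
  have hD' : Function.Surjective D' :=
    (Submodule.mkQ_surjective S1).comp (degMap_surjective F h2 (by omega))
  have hmemU : ∀ f : Esub F α, f ∈ U ↔ degMap F α f ∈ S1 := by
    intro f
    change S1.mkQ (degMap F α f) = 0 ↔ _
    rw [Submodule.mkQ_apply, Submodule.Quotient.mk_eq_zero]
  have hfB : Module.finrank F B = Fintype.card α := by
    rw [LinearMap.finrank_range_of_inj (starMap_injective F h2 (by omega)),
      Module.finrank_fintype_fun_eq_card]
  have hfU : Module.finrank F U + Fintype.card α ≤ (Fintype.card α).choose 2 + 1 := by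
    have e1 := LinearMap.finrank_range_add_finrank_ker D'
    have e2 : Module.finrank F (LinearMap.range D') + 1 = Fintype.card α := by
      rw [LinearMap.range_eq_top.mpr hD', finrank_top]
      have e3 := Submodule.finrank_quotient_add_finrank S1
      have e4 : Module.finrank F S1 = 1 := finrank_span_singleton hone
      rw [e4, Module.finrank_fintype_fun_eq_card] at e3
      exact e3
    have e5 := finrank_Esub (α := α) F
    change Module.finrank F (LinearMap.ker D') + _ ≤ _
    omega
  -- sums
  have hsum_star : ∀ (c : α → F) (i : α), degMap F α (starMap F α c) i = ∑ j, c j := by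
    intro c i
    rw [degMap_apply]
    have : ∀ j, (starMap F α c : α → α → F) i j
        = (c i + c j) - (if i = j then 2 * c i else 0) := by
      intro j
      rw [starMap_apply]
      by_cases h : i = j
      · subst h; simp; ring
      · simp [h]
    simp only [this, Finset.sum_sub_distrib, Finset.sum_add_distrib, Finset.sum_const,
      Finset.card_univ, nsmul_eq_mul, hn, Finset.sum_ite_eq, Finset.mem_univ, if_true]
    ring
  have hBU : B ≤ U := by
    rintro _ ⟨c, rfl⟩
    rw [hmemU, Submodule.mem_span_singleton]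
    refine ⟨∑ j, c j, ?_⟩
    ext i
    rw [hsum_star]
    simp [one]
  have hES : ∀ g, Esub F α ≤ (Esub F α).comap (permRep2 F α g) := by
    rintro g f ⟨hf1, hf2⟩
    exact ⟨fun i j => hf1 _ _, fun i => hf2 _⟩
  let ρ : Representation F (Perm α) (Esub F α) := (permRep2 F α).subrepresentation _ hES
  have hρ : ∀ g (f : Esub F α) i j, (ρ g f : α → α → F) i j
      = (f : α → α → F) (g⁻¹ i) (g⁻¹ j) := fun g f i j => rfl
  have hdeg : ∀ g (f : Esub F α), degMap F α (ρ g f) = fun i => degMap F α f (g⁻¹ i) := by
    intro g f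
    ext i
    rw [degMap_apply, degMap_apply]
    simp only [hρ]
    exact Equiv.sum_comp (g⁻¹ : Perm α) (fun j => (f : α → α → F) (g⁻¹ i) j)
  choose b hb1 hb2 using (fun ω : Om A => Om_spec ω)
  let φ : Om A → Esub F α := fun ω =>
    ⟨fun i j => if i = j then 0 else if (i ∈ b ω ↔ j ∈ b ω) then 1 else 0, by
      refine ⟨fun i j => ?_, fun i => by simp⟩
      change (if i = j then (0 : F) else if (i ∈ b ω ↔ j ∈ b ω) then 1 else 0)
        = (if j = i then 0 else if (j ∈ b ω ↔ i ∈ b ω) then 1 else 0)
      by_cases h : i = j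
      · simp [h]
      · rw [if_neg h, if_neg (Ne.symm h)]
        have : (i ∈ b ω ↔ j ∈ b ω) ↔ (j ∈ b ω ↔ i ∈ b ω) := ⟨Iff.symm, Iff.symm⟩
        simp only [this]⟩
  have hφ : ∀ ω i j, (φ ω : α → α → F) i j
      = if i = j then 0 else if (i ∈ b ω ↔ j ∈ b ω) then 1 else 0 := fun ω i j => rfl
  have hUB := Submodule.finrank_mono hBU
  refine ⟨Module.finrank F U - Module.finrank F B, by omega, ?_⟩
  apply hasRep_of_subquotient ρ U B ?_ ?_ hBU φ ?_ ?_ ?_
  · -- U invariant
    intro g f hf
    rw [Submodule.mem_comap, hmemU, hdeg]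
    rw [hmemU, Submodule.mem_span_singleton] at hf
    obtain ⟨c, hc⟩ := hf
    rw [Submodule.mem_span_singleton]
    refine ⟨c, ?_⟩
    ext i
    have := congrFun hc (g⁻¹ i)
    simpa [one] using this
  · -- B invariant
    rintro g _ ⟨c, rfl⟩
    rw [Submodule.mem_comap]
    refine ⟨fun i => c (g⁻¹ i), ?_⟩
    apply Subtype.ext
    ext i j
    rw [hρ, starMap_apply, starMap_apply]
    simp only [EmbeddingLike.apply_eq_iff_eq]
  · -- φ in U
    intro ω
    rw [hmemU, Submodule.mem_span_singleton]
    refine ⟨(A.card : F) - 1, ?_⟩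
    ext i
    rw [degMap_apply]
    have : ∀ j, (φ ω : α → α → F) i j
        = (if (i ∈ b ω ↔ j ∈ b ω) then 1 else 0) - (if i = j then 1 else 0) := by
      intro j
      rw [hφ]
      by_cases h : i = j
      · subst h; simp
      · simp [h]
    simp only [this, Finset.sum_sub_distrib, Finset.sum_ite_eq, Finset.mem_univ, if_true, one,
      Pi.smul_apply, smul_eq_mul, mul_one, Finset.sum_boole]
    congr 2
    by_cases hi : i ∈ b ω
    · simp only [hi, true_iff, Finset.filter_univ_mem]
      exact (hb1 ω).symm
    · simp only [hi, false_iff]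
      have : (Finset.univ.filter (fun j => j ∉ b ω)) = (b ω)ᶜ := by ext; simp
      rw [this]
      have e1 := Finset.card_add_card_compl (b ω)
      have e2 := hb1 ω
      omega
  · -- equivariance
    intro g ω
    have : φ (g • ω) = ρ g (φ ω) := by
      apply Subtype.ext
      ext i j
      rw [hρ, hφ, hφ]
      have hpair : b (g • ω) = g • b ω ∨ b (g • ω) = (g • b ω)ᶜ := by
        rw [← pair_eq_iff, ← hb2, ← smul_pair, ← hb2]
        rfl
      have hiff : (i ∈ b (g • ω) ↔ j ∈ b (g • ω)) ↔ (g⁻¹ i ∈ b ω ↔ g⁻¹ j ∈ b ω) := by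
        rcases hpair with h | h
        · rw [h, ← Finset.inv_smul_mem_iff, ← Finset.inv_smul_mem_iff]; rfl
        · rw [h, Finset.mem_compl, Finset.mem_compl, ← Finset.inv_smul_mem_iff,
            ← Finset.inv_smul_mem_iff, Perm.smul_def, Perm.smul_def]
          tauto
      simp only [EmbeddingLike.apply_eq_iff_eq, hiff]
    rw [this, sub_self]
    exact B.zero_mem
  · -- injectivity modulo B
    rintro ω ω' ⟨c, hc⟩
    have hc' : ∀ i j, i ≠ j → c i + c j = (if (i ∈ b ω ↔ j ∈ b ω) then (1 : F) else 0)
        - (if (i ∈ b ω' ↔ j ∈ b ω') then (1 : F) else 0) := by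
      intro i j hij
      have := congrFun (congrFun (congrArg Subtype.val hc) i) j
      rw [starMap_apply, if_neg hij] at this
      rw [this]
      change (φ ω : α → α → F) i j - (φ ω' : α → α → F) i j = _
      rw [hφ, hφ, if_neg hij, if_neg hij]
    have hcb := hb1 ω
    have hcbc : (b ω)ᶜ.card = A.card := by
      have e1 := Finset.card_add_card_compl (b ω)
      omega
    have hdiff : ∀ i ∈ b ω, ∀ k, k ∉ b ω → ¬ (i ∈ b ω' ↔ k ∈ b ω') := by
      intro i hi k hk hik
      obtain ⟨j, hj, hji⟩ : ∃ j ∈ b ω, j ≠ i := by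
        have : 1 < (b ω).card := by omega
        obtain ⟨j, hj, hji⟩ := Finset.exists_mem_ne this i
        exact ⟨j, hj, hji⟩
      obtain ⟨l, hl, hlk⟩ : ∃ l, l ∉ b ω ∧ l ≠ k := by
        have : 1 < (b ω)ᶜ.card := by omega
        obtain ⟨l, hl, hlk⟩ := Finset.exists_mem_ne this k
        exact ⟨l, by simpa using hl, hlk⟩
      have nij : i ≠ j := hji.symm
      have njk : j ≠ k := by rintro rfl; exact hk hj
      have nkl : k ≠ l := hlk.symm
      have nli : l ≠ i := by rintro rfl; exact hl hi
      have e1 := hc' i j nij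
      have e2 := hc' j k njk
      have e3 := hc' k l nkl
      have e4 := hc' l i nli
      rw [if_pos (by simp [hi, hj])] at e1
      rw [if_neg (by simp [hk, hj])] at e2
      rw [if_pos (by simp [hk, hl])] at e3
      rw [if_neg (by simp [hi, hl])] at e4
      have f1 : (if (j ∈ b ω' ↔ k ∈ b ω') then (1 : F) else 0)
          = (if (i ∈ b ω' ↔ j ∈ b ω') then (1 : F) else 0) := by
        have : (j ∈ b ω' ↔ k ∈ b ω') ↔ (i ∈ b ω' ↔ j ∈ b ω') := by tauto
        simp only [this]
      have f2 : (if (k ∈ b ω' ↔ l ∈ b ω') then (1 : F) else 0)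
          = (if (l ∈ b ω' ↔ i ∈ b ω') then (1 : F) else 0) := by
        have : (k ∈ b ω' ↔ l ∈ b ω') ↔ (l ∈ b ω' ↔ i ∈ b ω') := by tauto
        simp only [this]
      apply h2
      rw [f1] at e2
      rw [f2] at e3
      linear_combination -e1 + e2 - e3 + e4
    apply Subtype.ext
    rw [hb2, hb2, pair_eq_iff]
    obtain ⟨i₀, hi₀⟩ : (b ω).Nonempty := by rw [← Finset.card_pos]; omega
    obtain ⟨k₀, hk₀⟩ : (b ω)ᶜ.Nonempty := by rw [← Finset.card_pos]; omega
    rw [Finset.mem_compl] at hk₀
    by_cases h0 : i₀ ∈ b ω'
    · left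
      ext x
      by_cases hx : x ∈ b ω
      · have e1 := hdiff x hx k₀ hk₀
        have e2 := hdiff i₀ hi₀ k₀ hk₀
        tauto
      · have e2 := hdiff i₀ hi₀ x hx
        tauto
    · right
      ext x
      rw [Finset.mem_compl]
      by_cases hx : x ∈ b ω
      · have e1 := hdiff x hx k₀ hk₀
        have e2 := hdiff i₀ hi₀ k₀ hk₀
        tauto
      · have e2 := hdiff i₀ hi₀ x hx
        tauto

end Pool.Agent.H13.Halving
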