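import Mathlib

set_option autoImplicit false

/-!
Definitions for the linear dimension of a finite group action.
-/

namespace Pool.Agent.H13.LinDim

universe u

/-- `HasRep F G Ω d`: the action of `G` on `Ω` has a representation over `F` of dimension `d`,
i.e. there are a finite-dimensional `F`-space `V` with `dim V = d`, a homomorphism
`ρ : G → GL(V)` and an injective map `φ : Ω → V` with `φ (g • ω) = ρ g (φ ω)`. -/
def HasRep (F : Type u) [Field F] (G : Type) [Group G] (Ω : Type) [MulAction G Ω] (d : ℕ) :
    Prop :=
  ∃ (V : Type u) (_ : AddCommGroup V) (_ : Module F V) (ρ : Representation F G V) (φ : Ω → V),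
    FiniteDimensional F V ∧ Module.finrank F V = d ∧ Function.Injective φ ∧
      ∀ (g : G) (ω : Ω), φ (g • ω) = ρ g (φ ω)

/-- The `F`-linear dimension of the action of `G` on `Ω`: the least dimension of a
representation of the action over `F`. -/
noncomputable def lindim (F : Type u) [Field F] (G : Type) [Group G] (Ω : Type)
    [MulAction G Ω] : ℕ :=
  sInf {d : ℕ | HasRep F G Ω d}

/-- The action of `S_n` on `Ω` is equivalent to the action on the `k`-element subsets of
`{1, …, n}`. -/
def IsSubsetAction (n : ℕ) (Ω : Type) [MulAction (Equiv.Perm (Fin n)) Ω] (k : ℕ) : Prop :=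
  ∃ e : Ω ≃ {s : Finset (Fin n) // s.card = k},
    ∀ (g : Equiv.Perm (Fin n)) (ω : Ω),
      (e (g • ω) : Finset (Fin n)) = (e ω : Finset (Fin n)).image g

/-- The actions of `S_n` which the question is about: faithful primitive actions on finite
sets, not equivalent to a `k`-subset action for any `k`. -/
structure Admissible (n : ℕ) (Ω : Type) [MulAction (Equiv.Perm (Fin n)) Ω] : Prop where
  finite : Finite Ω
  faithful : FaithfulSMul (Equiv.Perm (Fin n)) Ω
  primitive : MulAction.IsPreprimitive (Equiv.Perm (Fin n)) Ω
  not_subset : ∀ k : ℕ, ¬ IsSubsetAction n Ω k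

/-- The statement of the question: there is `n₀` such that for every `n ≥ n₀`, every field `F`
and every faithful primitive action of `S_n` on a finite set `Ω` that is not equivalent to a
`k`-subset action for any `k`, the linear dimension is at least `(n² - 3n)/2`. -/
def Question : Prop :=
  ∃ n₀ : ℕ, ∀ n : ℕ, n₀ ≤ n → ∀ (F : Type u) [Field F] (Ω : Type)
    [MulAction (Equiv.Perm (Fin n)) Ω], Admissible n Ω →
      ((n : ℝ) ^ 2 - 3 * n) / 2 ≤ (lindim F (Equiv.Perm (Fin n)) Ω : ℝ)

/-- The permutation module is a representation of the action. -/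
lemma hasRep_card (F : Type u) [Field F] (G : Type) [Group G] (Ω : Type) [MulAction G Ω]
    [Finite Ω] : HasRep F G Ω (Nat.card Ω) := by
  let ρ : Representation F G (Ω →₀ F) :=
    { toFun := fun g => Finsupp.lmapDomain F F (fun ω => g • ω)
      map_one' := by
        ext x y
        simp
      map_mul' := fun g h => by
        ext x y
        simp [mul_smul] }
  refine ⟨Ω →₀ F, inferInstance, inferInstance, ρ,
    fun ω => Finsupp.single ω 1, inferInstance, ?_, ?_, ?_⟩
  · have := Fintype.ofFinite Ω
    rw [Module.finrank_finsupp_self, Nat.card_eq_fintype_card]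
  · intro ω ω' h
    exact Finsupp.single_left_injective one_ne_zero h
  · intro g ω
    change _ = Finsupp.mapDomain (fun ω => g • ω) (Finsupp.single ω 1)
    rw [Finsupp.mapDomain_single]

/-- The least dimension is attained. -/
lemma hasRep_lindim (F : Type u) [Field F] (G : Type) [Group G] (Ω : Type) [MulAction G Ω]
    [Finite Ω] : HasRep F G Ω (lindim F G Ω) :=
  Nat.sInf_mem (s := {d : ℕ | HasRep F G Ω d}) ⟨_, hasRep_card F G Ω⟩

lemma lindim_le {F : Type u} [Field F] {G : Type} [Group G] {Ω : Type} [MulAction G Ω]
    {d : ℕ} (h : HasRep F G Ω d) : lindim F G Ω ≤ d :=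
  Nat.sInf_le h

end Pool.Agent.H13.LinDim
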